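import Pool.Agent.H98.Can2

set_option autoImplicit false
open scoped ENNReal
open MeasureTheory Filter Topology

namespace Pool.Agent.Results.MP_d2d64b_pr.Zero

/-- mass-transport principle for the random rooted graph `(G, o)`, `o` distributed as `π` -/
def Unimod {V : Type} (G : SimpleGraph V) (π : PMF V) : Prop :=
  ∀ f : V → V → ℝ≥0∞, (∀ φ : G ≃g G, ∀ x y, f (φ x) (φ y) = f x y) →
    ∑' o, π o * ∑' x, f o x = ∑' o, π o * ∑' x, f x o

/-- every set of roots closed under moving the root along an edge has probability `0` or `1` -/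
def Ergod {V : Type} (G : SimpleGraph V) (π : PMF V) : Prop :=
  ∀ A : Set V, (∀ x y, G.Adj x y → x ∈ A → y ∈ A) →
    π.toOuterMeasure A = 0 ∨ π.toOuterMeasure A = 1

/-- every finite vertex set has at least as many boundary edges as vertices -/
def Expand {V : Type} (G : SimpleGraph V) : Prop :=
  ∀ K : Finset V, K.card ≤ {e : V × V | e.1 ∈ K ∧ e.2 ∉ K ∧ G.Adj e.1 e.2}.ncard

open Classical in
/-- transition probabilities of the walk with conductances `c` -/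
noncomputable def ker {V : Type} (G : SimpleGraph V) (c : Sym2 V → ℝ) (x y : V) : ℝ :=
  if G.Adj x y then c s(x, y) / ∑ᶠ z ∈ G.neighborSet x, c s(x, z) else 0

/-- `X` moves by the kernel of the (possibly random) conductances `c` -/
def Walk {V Ω : Type} [MeasurableSpace Ω] (G : SimpleGraph V) (P : Measure Ω)
    (c : Ω → Sym2 V → ℝ) (X : ℕ → Ω → V) : Prop :=
  (∀ n x, MeasurableSet {ω | X n ω = x}) ∧
  ∀ n x y, P {ω | X n ω = x ∧ X (n + 1) ω = y} =
    ∫⁻ ω in {ω | X n ω = x}, ENNReal.ofReal (ker G (c ω) x y) ∂P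

open Pool.Agent.H98.Can

lemma ker_le {c : Sym2 V → ℝ} (hc : ∀ e, 1 ≤ c e ∧ c e ≤ 2) (g : H) (k a : ℕ) (y : V) :
    ENNReal.ofReal (ker G c (g, k + 1, a) y) ≤ 2⁻¹ ^ k := by
  have h1 : ker G c (g, k + 1, a) y ≤ 2⁻¹ ^ k := by
    unfold ker
    split_ifs
    · rw [finsum_mem_eq_finite_toFinset_sum _ (locfin _)]
      have h2 := Finset.card_nsmul_le_sum (locfin (g, k + 1, a)).toFinset
        (fun z => c s((g, k + 1, a), z)) 1 (fun z _ => (hc _).1)
      have h3 := deg_ge g k a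
      rw [Set.ncard_eq_toFinset_card _ (locfin _)] at h3
      have h4 : ((2 : ℝ) ^ (k + 1)) ≤ ((locfin (g, k + 1, a)).toFinset.card : ℝ) := by
        exact_mod_cast h3
      rw [nsmul_eq_mul, mul_one] at h2
      calc _ ≤ 2 / (2 : ℝ) ^ (k + 1) :=
            div_le_div₀ (by norm_num) (hc _).2 (by positivity) (h4.trans h2)
        _ = _ := by rw [pow_succ, inv_pow]; field_simp
    · positivity
  refine (ENNReal.ofReal_le_ofReal h1).trans_eq ?_
  rw [ENNReal.ofReal_pow (by norm_num), ENNReal.ofReal_inv_of_pos (by norm_num)]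
  simp

section
variable {Ω : Type} [MeasurableSpace Ω] {P : Measure Ω} [IsProbabilityMeasure P]
  {c : Ω → Sym2 V → ℝ} {X : ℕ → Ω → V}

lemma ae_adj (h : Walk G P c X) : ∀ᵐ ω ∂P, ∀ n, G.Adj (X n ω) (X (n + 1) ω) := by
  have h1 : ∀ᵐ ω ∂P, ∀ n x y, ¬G.Adj x y → ¬(X n ω = x ∧ X (n + 1) ω = y) := by
    simp only [ae_all_iff]
    intro n x y hxy
    rw [ae_iff]
    simp only [not_not]
    rw [h.2]
    simp [ker, hxy]
  filter_upwards [h1] with ω hω n
  by_contra hn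
  exact hω n _ _ hn ⟨rfl, rfl⟩

lemma up_le (hc : ∀ ω e, 1 ≤ c ω e ∧ c ω e ≤ 2) (h : Walk G P c X) (n k : ℕ) :
    P {ω | (X n ω).2.1 = k + 1 ∧ X (n + 1) ω = par (X n ω)} ≤ 2⁻¹ ^ k := by
  have h1 : {ω | (X n ω).2.1 = k + 1 ∧ X (n + 1) ω = par (X n ω)} ⊆
      ⋃ p : H × ℕ, {ω | X n ω = (p.1, k + 1, p.2) ∧ X (n + 1) ω = par (p.1, k + 1, p.2)} := by
    rintro ω ⟨a, b⟩
    have e : X n ω = ((X n ω).1, k + 1, (X n ω).2.2) := by rw [← a]
    exact Set.mem_iUnion.mpr ⟨((X n ω).1, (X n ω).2.2), e, by rw [b, ← e]⟩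
  refine (measure_mono h1).trans ((measure_iUnion_le _).trans ?_)
  have h2 : ∀ p : H × ℕ, P {ω | X n ω = (p.1, k + 1, p.2) ∧ X (n + 1) ω = par (p.1, k + 1, p.2)} ≤
      2⁻¹ ^ k * P {ω | X n ω = (p.1, k + 1, p.2)} := by
    intro p
    rw [h.2, ← setLIntegral_const]
    exact lintegral_mono fun ω => ker_le (hc ω) _ _ _ _
  refine (ENNReal.tsum_le_tsum h2).trans ?_
  rw [ENNReal.tsum_mul_left, ← measure_iUnion _ (fun p => h.1 n _)]
  · exact mul_le_of_le_one_right' prob_le_one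
  · intro p q hpq
    refine Set.disjoint_left.mpr fun ω a b => hpq ?_
    have e : ((p.1, k + 1, p.2) : V) = (q.1, k + 1, q.2) := (show X n ω = _ from a).symm.trans b
    simp only [Prod.mk.injEq] at e
    exact Prod.ext e.1 e.2.2

lemma ae_low (hc : ∀ ω e, 1 ≤ c ω e ∧ c ω e ≤ 2) (h : Walk G P c X) : ∀ᵐ ω ∂P, ∀ᶠ j in atTop,
    ∀ i < 2 ^ j, ¬((X i ω).2.1 = 2 * j + 1 ∧ X (i + 1) ω = par (X i ω)) := by
  set B : ℕ → Set Ω := fun j => ⋃ i ∈ Finset.range (2 ^ j),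
    {ω | (X i ω).2.1 = 2 * j + 1 ∧ X (i + 1) ω = par (X i ω)}
  have hB : ∀ j, P (B j) ≤ 2⁻¹ ^ j := by
    intro j
    refine (measure_biUnion_finset_le _ _).trans
      ((Finset.sum_le_card_nsmul _ _ _ fun i _ => up_le hc h i (2 * j)).trans_eq ?_)
    rw [Finset.card_range, nsmul_eq_mul, two_mul, pow_add, ← mul_assoc]
    push_cast
    rw [← mul_pow, ENNReal.mul_inv_cancel (by norm_num) (by norm_num), one_pow, one_mul]
  have h1 := ae_eventually_notMem (μ := P) (s := B) (ne_top_of_le_ne_top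
    (by rw [ENNReal.tsum_geometric_two]; simp) (ENNReal.tsum_le_tsum hB))
  filter_upwards [h1] with ω hω
  filter_upwards [hω] with j hj i hi hh
  exact hj (Set.mem_biUnion (Finset.mem_coe.mpr (Finset.mem_range.mpr hi)) hh)

end

lemma erg : Ergod G law := by
  intro A hA
  rcases A.eq_empty_or_nonempty with rfl | ⟨x, hx⟩
  · exact Or.inl (by simp)
  · refine Or.inr ((PMF.toOuterMeasure_apply_eq_one_iff _ _).mpr fun y _ => ?_)
    have key : ∀ z, Relation.ReflTransGen G.Adj x z → z ∈ A := by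
      intro z h
      induction h with
      | refl => exact hx
      | tail _ h2 ih => exact hA _ _ h2 ih
    exact key y ((SimpleGraph.reachable_iff_reflTransGen x y).mp (conn x y))

lemma lim0 : Tendsto (fun n : ℕ => ((6 * Nat.log 2 n + 9 : ℕ) : ℝ) / n) atTop (𝓝 0) := by
  have h1 : Tendsto (Nat.log 2) atTop atTop :=
    tendsto_atTop_atTop.mpr fun b => ⟨2 ^ b, fun n hn => Nat.le_log_of_pow_le (by norm_num) hn⟩
  have h2 : Tendsto (fun j : ℕ => 6 * ((j : ℝ) ^ 1 / 2 ^ j) + 9 * ((j : ℝ) ^ 0 / 2 ^ j)) atTop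
      (𝓝 (6 * 0 + 9 * 0)) :=
    ((tendsto_pow_const_div_const_pow_of_one_lt 1 (by norm_num)).const_mul 6).add
      ((tendsto_pow_const_div_const_pow_of_one_lt 0 (by norm_num)).const_mul 9)
  rw [mul_zero, mul_zero, add_zero] at h2
  refine squeeze_zero' (Eventually.of_forall fun n => by positivity) ?_ (h2.comp h1)
  filter_upwards [eventually_ge_atTop 1] with n hn
  have h3 : ((2 : ℝ) ^ Nat.log 2 n) ≤ n := by exact_mod_cast Nat.pow_log_le_self 2 (by omega)
  calc _ ≤ ((6 * Nat.log 2 n + 9 : ℕ) : ℝ) / 2 ^ Nat.log 2 n := by gcongr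
    _ = _ := by simp only [Function.comp]; push_cast; ring

theorem result : ∃ (V : Type) (_ : Countable V) (G : SimpleGraph V) (π : PMF V),
    G.Connected ∧ (∀ x, (G.neighborSet x).Finite) ∧ Unimod G π ∧ Ergod G π ∧ Expand G ∧
    ∑' o, π o * ((G.neighborSet o).ncard : ℝ≥0∞) ≠ ⊤ ∧
    ∀ (Ω : Type) [MeasurableSpace Ω] (P : Measure Ω) [IsProbabilityMeasure P]
      (c : Ω → Sym2 V → ℝ) (X : ℕ → Ω → V), (∀ ω e, 1 ≤ c ω e ∧ c ω e ≤ 2) → Walk G P c X →
      ∀ᵐ ω ∂P, Tendsto (fun n : ℕ => (G.dist (X 0 ω) (X n ω) : ℝ) / n) atTop (𝓝 0) := by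
  refine ⟨V, inferInstance, G, law, conn, locfin, mtp, erg, cheeger, edeg, ?_⟩
  intro Ω _ P _ c X hc h
  filter_upwards [ae_adj h, ae_low hc h] with ω h1 h2
  obtain ⟨j₀, hj⟩ := eventually_atTop.mp (h2.and (eventually_ge_atTop (X 0 ω).2.1))
  refine squeeze_zero' (Eventually.of_forall fun n => by positivity) ?_ lim0
  filter_upwards [eventually_ge_atTop (2 ^ j₀)] with n hn
  have h3 : j₀ ≤ Nat.log 2 n + 1 := (Nat.le_log_of_pow_le (by norm_num) hn).trans (Nat.le_succ _)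
  obtain ⟨h4, h5⟩ := hj _ h3
  have h6 := path_dist (fun i => X i ω) h1 (L := 2 * (Nat.log 2 n + 1) + 1) (j := Nat.log 2 n + 1)
    (n := n) (Nat.lt_pow_succ_log_self (by norm_num) n).le (by omega) h4
  have h7 : G.dist (X 0 ω) (X n ω) ≤ 6 * Nat.log 2 n + 9 := by omega
  gcongr

end Pool.Agent.Results.MP_d2d64b_pr.Zero
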